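import Pool.Agent.Lead.Fa.C

open Pool.Agent.H38.ER Pool.Agent.Lead.Fa

theorem Pool.Agent.Results.MP_8aa36a_lc.Hard.result : ERHardOn Reg4 Faithful := fa_erh.hardOn
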